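import Pool.Agent.Y485.HS.Stm

/-! Averages of maps with bounded energy have bounded energy. -/

set_option autoImplicit false

open MeasureTheory Set Metric Filter Topology
open scoped ENNReal NNReal

namespace Pool.Agent.H70HS

open Pool.Agent.Y485.HS

theorem sob_congr {n m : ℕ} {u v : E n → E n} (h : ∀ x ∈ BB n, u x = v x) (hu : SobOn m u) :
    SobOn m v := by
  obtain ⟨g, hg, h1, h2⟩ := hu
  refine ⟨g, hg, fun x hx y hy => ?_, h2⟩
  rw [← h x hx, ← h y hy]
  exact h1 x hx y hy

instance compactBB (n : ℕ) : CompactSpace (BB n) :=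
  isCompact_iff_compactSpace.1 (isCompact_closedBall 0 4)

open Classical in
/-- the extension by zero -/
noncomputable def ext {n : ℕ} (f : C(BB n, E n)) (x : E n) : E n :=
  if h : x ∈ BB n then f ⟨x, h⟩ else 0

theorem ext_apply {n : ℕ} (f : C(BB n, E n)) {x : E n} (h : x ∈ BB n) : ext f x = f ⟨x, h⟩ := by
  unfold ext
  rw [dif_pos h]

/-- the maps with energy at most `m` -/
def SS (n m : ℕ) : Set C(BB n, E n) := {f | SobOn m (ext f)}

theorem convex_SS {n : ℕ} (hn : 2 ≤ n) (m : ℕ) : Convex ℝ (SS n m) := by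
  rintro f ⟨g, hg, h1, h2⟩ f' ⟨g', hg', h1', h2'⟩ a b ha hb hab
  have hab' : ENNReal.ofReal a + ENNReal.ofReal b = 1 := by
    rw [← ENNReal.ofReal_add ha hb, hab, ENNReal.ofReal_one]
  refine ⟨fun x => ENNReal.ofReal a * g x + ENNReal.ofReal b * g' x,
    (hg.const_mul _).add (hg'.const_mul _), fun x hx y hy => ?_, ?_⟩
  · have e : ∀ z (hz : z ∈ BB n), ext (a • f + b • f') z = a • ext f z + b • ext f' z := by
      intro z hz
      rw [ext_apply _ hz, ext_apply _ hz, ext_apply _ hz]
      rfl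
    rw [e x hx, e y hy]
    have e1 : edist (a • ext f x) (a • ext f y) = ENNReal.ofReal a * edist (ext f x) (ext f y) := by
      rw [edist_smul₀, Real.nnnorm_of_nonneg ha, ENNReal.smul_def, smul_eq_mul]
      congr 1
      exact (ENNReal.ofReal_eq_coe_nnreal ha).symm
    have e2 : edist (b • ext f' x) (b • ext f' y) =
        ENNReal.ofReal b * edist (ext f' x) (ext f' y) := by
      rw [edist_smul₀, Real.nnnorm_of_nonneg hb, ENNReal.smul_def, smul_eq_mul]
      congr 1
      exact (ENNReal.ofReal_eq_coe_nnreal hb).symm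
    refine (edist_add_add_le _ _ _ _).trans ?_
    rw [e1, e2]
    refine (add_le_add (mul_le_mul_right (h1 x hx y hy) _) (mul_le_mul_right (h1' x hx y hy) _)).trans ?_
    exact le_of_eq (by ring)
  · have hn1 : (1 : ℝ) ≤ n := by exact_mod_cast (by omega : 1 ≤ n)
    have e1 : ∀ x, (ENNReal.ofReal a * g x + ENNReal.ofReal b * g' x) ^ n ≤
        ENNReal.ofReal a * g x ^ n + ENNReal.ofReal b * g' x ^ n := by
      intro x
      have := ENNReal.rpow_arith_mean_le_arith_mean2_rpow (ENNReal.ofReal a) (ENNReal.ofReal b)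
        (g x) (g' x) hab' hn1
      simpa only [ENNReal.rpow_natCast] using this
    calc ∫⁻ x in BB n, (ENNReal.ofReal a * g x + ENNReal.ofReal b * g' x) ^ n
        ≤ ∫⁻ x in BB n, (ENNReal.ofReal a * g x ^ n + ENNReal.ofReal b * g' x ^ n) :=
          lintegral_mono e1
      _ = ENNReal.ofReal a * (∫⁻ x in BB n, g x ^ n) + ENNReal.ofReal b *
          (∫⁻ x in BB n, g' x ^ n) := by
          rw [lintegral_add_left ((hg.pow_const n).const_mul _), lintegral_const_mul _ (hg.pow_const n),
            lintegral_const_mul _ (hg'.pow_const n)]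
      _ ≤ ENNReal.ofReal a * m + ENNReal.ofReal b * m :=
          add_le_add (mul_le_mul_right h2 _) (mul_le_mul_right h2' _)
      _ = m := by rw [← add_mul, hab', one_mul]

theorem isClosed_SS (h : S_CL) {n : ℕ} (hn : 2 ≤ n) (m : ℕ) : IsClosed (SS n m) := by
  refine IsSeqClosed.isClosed fun u v hu huv => ?_
  refine h n hn m (fun i => ext (u i)) (ext v) hu ?_
  rw [ContinuousMap.tendsto_iff_tendstoUniformly] at huv
  rw [Metric.tendstoUniformly_iff] at huv
  rw [Metric.tendstoUniformlyOn_iff]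
  intro ε hε
  filter_upwards [huv ε hε] with i hi x hx
  rw [ext_apply _ hx, ext_apply _ hx]
  exact hi ⟨x, hx⟩

theorem avg : S_CL → S_AVG := by
  intro hCL n hn Ω _ _ _ _ μ _ T hT m hm
  let Fc : C(Ω × BB n, E n) := ⟨fun q => T q.1 q.2, by
    have h1 : Continuous fun q : Ω × BB n => ((q.1, (q.2 : E n)) : Ω × E n) := by fun_prop
    exact hT.comp_continuous h1 fun q => ⟨mem_univ _, q.2.2⟩⟩
  let F : C(Ω, C(BB n, E n)) := Fc.curry
  have hF : ∀ ω (x : BB n), F ω x = T ω x := fun ω x => rfl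
  have hFc : Continuous F := F.continuous
  obtain ⟨C, hC⟩ := isCompact_univ.exists_bound_of_continuousOn hFc.continuousOn
  have hint : Integrable F μ := by
    refine Integrable.of_bound hFc.aestronglyMeasurable C ?_
    exact Eventually.of_forall fun ω => hC ω (mem_univ _)
  have hmem : ∫ ω, F ω ∂μ ∈ SS n m := by
    refine (convex_SS hn m).integral_mem (isClosed_SS hCL hn m) ?_ hint
    refine Eventually.of_forall fun ω => ?_
    exact sob_congr (fun x hx => (ext_apply (F ω) hx).symm ▸ rfl) (hm ω)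
  have hev : ∀ x (hx : x ∈ BB n), (∫ ω, F ω ∂μ) ⟨x, hx⟩ = ∫ ω, T ω x ∂μ := by
    intro x hx
    have h1 := (ContinuousMap.evalCLM ℝ (⟨x, hx⟩ : BB n)).integral_comp_comm
      (φ := F) (μ := μ) hint
    exact h1.symm
  refine ⟨sob_congr (fun x hx => ?_) hmem, ?_⟩
  · rw [ext_apply _ hx, hev x hx]
  · rw [continuousOn_iff_continuous_domRestrict]
    have h1 : (BB n).domRestrict (fun x => ∫ ω, T ω x ∂μ) = ⇑(∫ ω, F ω ∂μ) := by
      funext x
      exact (hev x.1 x.2).symm
    rw [h1]
    exact (∫ ω, F ω ∂μ).continuous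

end Pool.Agent.H70HS
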